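import Pool.Agent.Helper26.GPC.Mult
import Pool.Agent.Helper8.T1.FamT2
import Pool.Agent.Helper8.T1.GoodCM
import Pool.Agent.Helper8.T1.Transfer

/-!
Grothendieck classes are Hodge classes, for abelian varieties all of whose simple factors have real
multiplication of relative dimension one or two or complex multiplication.
-/

namespace Pool.Agent.Helper26.GPC

open Module NumberField Pool.Agent.GPC Pool.Agent.Helper7 Pool.Agent.Helper39.AF
open Pool.Agent.Helper8.T1

/-- the conditions on the family of the simple factors -/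
theorem relTwoCond {X : AbVar} {I : Type} {A : I → AbVar} {n : I → ℕ} {Φ : X.H1 ≃ₗ[ℂ] H1 A n}
    (hΦ : IsIsogeny X A n Φ) (hg : ∀ i, (A i).g ≠ 0) (hfac : ∀ i, (A i).IsSimpleFactor X)
    (hA : ∀ i j, i ≠ j → ∀ f, (A i).IsMor (A j) f → ∀ v, f v = 0) (hn : ∀ i, n i ≠ 0)
    (K : I → Type) [∀ i, Field (K i)] [∀ i, NumberField (K i)] (S U : Finset I)
    (hS : ∀ i ∈ S, IsRMType (A i) (K i)) (hU : ∀ i ∈ U, (A i).IsRelTwoFactor X (K i)) :
    RelTwoCond A n K S U := by
  refine ⟨fun i j _ _ _ _ hij => hA i j hij, fun i hi => ?_, fun i hi j hj _ _ => ?_⟩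
  · have h := (hU i hi).mult
    rw [← (hU i hi).type.2.1] at h
    exact mult_real hΦ i (hn i) (Nat.pos_of_ne_zero (hg i)) (K i) (hU i hi).type.1 h
  · rcases (hU i hi).link (A j) (hfac j) (K j) (hS j hj) with h | h | ⟨h1, h2⟩
    · exact Or.inl h
    · exact Or.inr (Or.inl h)
    · refine Or.inr (Or.inr ⟨?_, mult_le hΦ j (hn j) h2⟩)
      refine mult_real hΦ i (hn i) (Nat.pos_of_ne_zero (hg i)) (K i) (hU i hi).type.1 (m := 1) ?_
      rw [one_mul]
      exact h1

/-- the theorem, given the statements on exponents -/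
theorem main_C2 (hBal : GAM.St_Bal) (hExp : GAM.St_ExpAV) (hL : GAM.St_ExpL) (hP : GAM.St_PsiK)
    (hIso : GAM.St_Iso) (X : AbVar)
    (hX : ∀ B : AbVar, B.IsSimpleFactor X →
      (∃ (K : Type) (_ : Field K) (_ : NumberField K), IsRMType B K) ∨
      (∃ (K : Type) (_ : Field K) (_ : NumberField K) (ρ : K → B.H1 → B.H1), B.HasCM K ρ) ∨
      ∃ (K : Type) (_ : Field K) (_ : NumberField K), B.IsRelTwoFactor X K)
    (k : ℕ) (α : X.Class (2 * k)) (hα : X.IsGrothendieckClass k α)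
    (hCM : X.IsInFilPred k α ∨ X.IsGoodCMVar) : X.IsInFil k α := by
  classical
  obtain ⟨I, _, A, n, Φ, ι, hΦ, hg, hs, hA, hn, -, hι⟩ := exists_decomp X
  have hfac : ∀ i, (A i).IsSimpleFactor X := by
    intro i
    refine ⟨hs i, ι i, (hι i).1, ?_⟩
    by_contra hcon
    push Not at hcon
    let u : (A i).H1 := Pi.single (Sum.inl ⟨0, Nat.pos_of_ne_zero (hg i)⟩) 1
    have h1 : ∀ v, (pData (A i)).ψ u v = 0 := by
      intro v
      have h2 := (hι i).2 u v
      have h3 : X.pol (ι i u) (ι i v) = 0 := by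
        rw [hcon u, hcon v]
        simp [AbVar.pol]
      rw [h3] at h2
      exact h2.symm
    have h4 := congrFun ((pData (A i)).hψnd u h1) (Sum.inl ⟨0, Nat.pos_of_ne_zero (hg i)⟩)
    have h5 : u (Sum.inl ⟨0, Nat.pos_of_ne_zero (hg i)⟩) = 1 := Pi.single_eq_same _ _
    rw [h5] at h4
    exact one_ne_zero h4
  have hK : ∀ i, ∃ (K : Type) (_ : Field K) (_ : NumberField K), IsRMType (A i) K ∨
      (A i).IsRelTwoFactor X K ∨ IsCMType (A i) K := by
    intro i
    rcases hX (A i) (hfac i) with ⟨K, h1, h2, h⟩ | ⟨K, h1, h2, ρ, h⟩ | ⟨K, h1, h2, h⟩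
    · exact ⟨K, h1, h2, Or.inl h⟩
    · obtain ⟨K', h3, h4, h5, -⟩ := cm_of_hasCM h (hs i)
      exact ⟨K', h3, h4, Or.inr (Or.inr h5)⟩
    · exact ⟨K, h1, h2, Or.inr (Or.inl h)⟩
  choose K iF iN hK using hK
  obtain ⟨S, hS⟩ : ∃ S : Finset I, ∀ i, i ∈ S ↔ IsRMType (A i) (K i) :=
    ⟨Finset.univ.filter fun i => IsRMType (A i) (K i), fun i => by simp⟩
  obtain ⟨U, hU⟩ : ∃ U : Finset I, ∀ i, i ∈ U ↔ (A i).IsRelTwoFactor X (K i) :=
    ⟨Finset.univ.filter fun i => (A i).IsRelTwoFactor X (K i), fun i => by simp⟩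
  obtain ⟨T, hT⟩ : ∃ T : Finset I, ∀ i, i ∈ T ↔ IsCMType (A i) (K i) :=
    ⟨Finset.univ.filter fun i => IsCMType (A i) (K i), fun i => by simp⟩
  have hST : ∀ i, i ∈ S ∨ i ∈ U ∨ i ∈ T := fun i => by
    rw [hS, hU, hT]
    exact hK i
  have hc : U = ∅ ∨ RelTwoCond A n K S U := Or.inr
    (relTwoCond hΦ hg hfac hA hn K S U (fun i hi => (hS i).mp hi) (fun i hi => (hU i).mp hi))
  refine inFil_of_hodge hΦ α ?_
  rcases hCM with h | h
  · exact hodge_T1 A n K S U T hST (fun i hi => (hS i).mp hi)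
      (fun i hi => ((hU i).mp hi).type) (fun i hi => (hT i).mp hi) hc k _
      (grothendieck_transfer hΦ α hα) hL hP hIso hExp (filPred_transfer hΦ α h)
  · obtain ⟨h1, h2⟩ := good_family h A K T (fun i _ => hfac i) hA (fun i hi => (hT i).mp hi)
    exact hodge_T2 A n K S U T hST (fun i hi => (hS i).mp hi)
      (fun i hi => ((hU i).mp hi).type) (fun i hi => (hT i).mp hi) hc k _
      (grothendieck_transfer hΦ α hα) hBal hExp hL hP hIso h1 h2

end Pool.Agent.Helper26.GPC
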