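import Pool.Agent.Helper26.GPC.Types
import Pool.Agent.Helper39.AF.Transfer
import Pool.Agent.Helper8.H.EndDim

/-!
The multiplicity of a simple factor is bounded by the dimension of the space of homomorphisms.
-/

namespace Pool.Agent.Helper26.GPC

open Module Pool.Agent.GPC Pool.Agent.Helper7 Pool.Agent.Helper39.AF Pool.Agent.Helper8

/-- the space of endomorphisms -/
noncomputable def endQ (B : AbVar) : Submodule ℚ (Module.End ℂ B.H1) where
  carrier := {f | B.IsEnd f}
  add_mem' := by
    intro f g hf hg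
    refine ⟨LinearMap.isLinear _, fun v hv => ?_, fun v hv j => ?_, fun v hv a => ?_⟩
    · have h1 := (mem_pData_Q B _).mpr (hf.betti v hv)
      have h2 := (mem_pData_Q B _).mpr (hg.betti v hv)
      exact (mem_pData_Q B _).mp (Submodule.add_mem _ h1 h2)
    · exact (hf.deRham v hv j).add (hg.deRham v hv j)
    · show f v (.inl a) + g v (.inl a) = 0
      rw [hf.hodge v hv a, hg.hodge v hv a, add_zero]
  zero_mem' := by
    refine ⟨LinearMap.isLinear _, fun v hv => ?_, fun v hv j => ?_, fun v hv a => rfl⟩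
    · exact (mem_pData_Q B _).mp (Submodule.zero_mem _)
    · exact isAlgebraic_zero
  smul_mem' := by
    intro c f hf
    refine ⟨LinearMap.isLinear _, fun v hv => ?_, fun v hv j => ?_, fun v hv a => ?_⟩
    · have h1 := (mem_pData_Q B _).mpr (hf.betti v hv)
      exact (mem_pData_Q B _).mp (Submodule.smul_mem _ c h1)
    · rw [toRat_smul_eq]
      exact (isAlgebraic_algebraMap c).mul (hf.deRham v hv j)
    · rw [toRat_smul_eq]
      show (c : ℂ) * f v (.inl a) = 0
      rw [hf.hodge v hv a, mul_zero]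

variable {X : AbVar} {I : Type} {A : I → AbVar} {n : I → ℕ} {Φ : X.H1 ≃ₗ[ℂ] H1 A n}

open Classical in
/-- the homomorphism `A_i → X` given by `n_i` endomorphisms of `A_i` -/
noncomputable def asm (Φ : X.H1 ≃ₗ[ℂ] H1 A n) (i : I) :
    (Fin (n i) → endQ (A i)) →ₗ[ℚ] ((A i).H1 →ₗ[ℂ] X.H1) where
  toFun f := Φ.symm.toLinearMap ∘ₗ
    (LinearMap.single ℂ (fun j => Fin (n j) → (A j).H1) i) ∘ₗ (LinearMap.pi fun m => (f m).1)
  map_add' f g := by
    apply LinearMap.ext
    intro v
    have h : (LinearMap.pi fun m => ((f + g) m).1) v =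
        (LinearMap.pi fun m => (f m).1) v + (LinearMap.pi fun m => (g m).1) v := rfl
    simp only [LinearMap.comp_apply, LinearMap.add_apply]
    rw [h, map_add, map_add]
  map_smul' c f := by
    apply LinearMap.ext
    intro v
    have h : (LinearMap.pi fun m => ((c • f) m).1) v =
        c • (LinearMap.pi fun m => (f m).1) v := rfl
    simp only [LinearMap.comp_apply, RingHom.id_apply]
    rw [h, map_rat_smul, map_rat_smul]
    rfl

open Classical in
lemma asm_apply (i : I) (f : Fin (n i) → endQ (A i)) (v : (A i).H1) :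
    asm Φ i f v = Φ.symm (Pi.single i (fun m => (f m).1 v)) := rfl

lemma isMor_asm (hΦ : IsIsogeny X A n Φ) (i : I) (f : Fin (n i) → endQ (A i)) :
    (A i).IsMor X (asm Φ i f) := by
  classical
  refine ⟨LinearMap.isLinear _, fun v hv => ?_, fun v hv => ?_, fun v hv => ?_⟩
  · rw [asm_apply, betti_symm hΦ]
    intro j m
    rcases eq_or_ne j i with rfl | h
    · rw [Pi.single_eq_same]
      exact (f m).2.betti v hv
    · rw [Pi.single_eq_of_ne h]
      exact (mem_pData_Q (A j) _).mp (Submodule.zero_mem _)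
  · rw [asm_apply, deRham_symm hΦ]
    intro j m
    rcases eq_or_ne j i with rfl | h
    · rw [Pi.single_eq_same]
      exact (f m).2.deRham v hv
    · rw [Pi.single_eq_of_ne h]
      exact fun _ => isAlgebraic_zero
  · rw [asm_apply, fil_symm hΦ]
    intro j m
    rcases eq_or_ne j i with rfl | h
    · rw [Pi.single_eq_same]
      exact (f m).2.hodge v hv
    · rw [Pi.single_eq_of_ne h]
      exact fun _ => rfl

lemma asm_injective (i : I) : Function.Injective (asm Φ i) := by
  classical
  rw [injective_iff_map_eq_zero]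
  intro f hf
  funext m
  apply Subtype.ext
  apply LinearMap.ext
  intro v
  have h1 := LinearMap.congr_fun hf v
  rw [asm_apply, LinearMap.zero_apply, LinearEquiv.map_eq_zero_iff] at h1
  have h2 := congrFun (congrFun h1 i) m
  rw [Pi.single_eq_same] at h2
  exact h2

/-- `n_i dim End(A_i) ≤ dim Hom(A_i, X)` -/
theorem mult_le (hΦ : IsIsogeny X A n Φ) (i : I) (hn : n i ≠ 0) {d : ℕ}
    (h : (A i).HomDimLe X d) : ∃ d', (A i).EndDimLe d' ∧ n i * d' ≤ d := by
  classical
  obtain ⟨e, he, hs⟩ := h
  obtain ⟨e', he'⟩ : ∃ e' : Fin d → ((A i).H1 →ₗ[ℂ] X.H1), ∀ l v, e' l v = e l v :=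
    ⟨fun l => IsLinearMap.mk' _ (he l).linear, fun l v => rfl⟩
  obtain ⟨V, hV⟩ : ∃ V : Submodule ℚ ((A i).H1 →ₗ[ℂ] X.H1),
      V = Submodule.span ℚ (Set.range e') := ⟨_, rfl⟩
  have hfin : FiniteDimensional ℚ V := by
    rw [hV]
    exact FiniteDimensional.span_of_finite ℚ (Set.finite_range e')
  have hVd : finrank ℚ V ≤ d := by
    rw [hV]
    have := finrank_range_le_card (R := ℚ) e'
    rw [Fintype.card_fin] at this
    exact this
  have hmem : ∀ f : (A i).H1 →ₗ[ℂ] X.H1, (A i).IsMor X f → f ∈ V := by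
    intro f hf
    obtain ⟨x, hx⟩ := hs f hf
    have h1 : f = ∑ l, x l • e' l := by
      apply LinearMap.ext
      intro v
      rw [hx, LinearMap.sum_apply]
      refine Finset.sum_congr rfl fun l _ => ?_
      rw [LinearMap.smul_apply, he']
      exact Rat.cast_smul_eq_qsmul ℂ (x l) (e l v)
    rw [h1, hV]
    exact Submodule.sum_mem _ fun l _ => Submodule.smul_mem _ _
      (Submodule.subset_span (Set.mem_range_self l))
  have hr : ∀ f, asm Φ i f ∈ V := fun f => hmem _ (isMor_asm hΦ i f)
  let ψ : (Fin (n i) → endQ (A i)) →ₗ[ℚ] V := (asm Φ i).codRestrict V hr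
  have hψ : Function.Injective ψ := by
    intro f g hfg
    exact asm_injective i (congrArg Subtype.val hfg)
  let ι : endQ (A i) →ₗ[ℚ] (Fin (n i) → endQ (A i)) := LinearMap.pi fun _ => LinearMap.id
  have hι : Function.Injective ι := by
    intro f g hfg
    exact congrFun hfg ⟨0, Nat.pos_of_ne_zero hn⟩
  have hN : IsNoetherian ℚ V := isNoetherian_of_isNoetherianRing_of_finite ℚ V
  have hE : Module.Finite ℚ (endQ (A i)) :=
    Module.Finite.of_injective (ψ ∘ₗ ι) (hψ.comp hι)
  have hFr : Module.Free ℚ (endQ (A i)) := Module.Free.of_divisionRing ℚ (endQ (A i))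
  refine ⟨finrank ℚ (endQ (A i)), ?_, ?_⟩
  · let b := Module.finBasis ℚ (endQ (A i))
    refine ⟨fun l => (b l).1, fun l => (b l).2, fun f hf => ?_⟩
    let f' : endQ (A i) := ⟨IsLinearMap.mk' _ hf.linear, hf⟩
    refine ⟨fun l => b.repr f' l, fun v => ?_⟩
    have h1 := congrArg (fun z : endQ (A i) => z.1 v) (b.sum_repr f')
    have h2 : (∑ l, b.repr f' l • b l : endQ (A i)).1 v =
        ∑ l, ((b.repr f' l : ℚ) : ℂ) • (b l).1 v := by
      rw [AddSubmonoidClass.coe_finsetSum, LinearMap.sum_apply]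
      refine Finset.sum_congr rfl fun l _ => ?_
      rw [Submodule.coe_smul, toRat_smul_eq]
    rw [← h2]
    exact h1.symm
  · have h1 := LinearMap.finrank_le_finrank_of_injective hψ
    rw [Module.finrank_pi_fintype, Finset.sum_const, Finset.card_univ, Fintype.card_fin,
      smul_eq_mul] at h1
    exact h1.trans hVd

/-- the multiplicity of a simple factor of real type -/
theorem mult_real (hΦ : IsIsogeny X A n Φ) (i : I) (hn : n i ≠ 0) (hg : 0 < (A i).g)
    (K : Type) [Field K] [NumberField K] (hR : IsRealType (A i) K) {m : ℕ}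
    (h : (A i).HomDimLe X (m * finrank ℚ K)) : n i ≤ m := by
  obtain ⟨d, hd, hle⟩ := mult_le hΦ i hn h
  obtain ⟨F, -⟩ := nonempty_RF (A i) K (Classical.choice hR.2)
  have h1 := (endo_cases (A i) hg K F.ρ F.hρ d hd).1
  have h2 : 0 < finrank ℚ K := finrank_pos
  exact Nat.le_of_mul_le_mul_right ((Nat.mul_le_mul_left _ h1).trans hle) h2

end Pool.Agent.Helper26.GPC
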