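import Pool.Agent.Helper8.T1.Types
import Pool.Agent.Helper8.H.Types

/-!
The dimension of the space of homomorphisms, simple factors of real type of relative dimension two.
-/

namespace Pool.Agent.GPC

/-- `dim_ℚ (Hom(B, X) ⊗ ℚ) ≤ d`: the space of homomorphisms `B → X` (tensor `ℚ`) is spanned by `d`
elements over `ℚ`. -/
def AbVar.HomDimLe (B X : AbVar) (d : ℕ) : Prop :=
  ∃ e : Fin d → (B.H1 → X.H1), (∀ l, B.IsMor X (e l)) ∧
    ∀ f, B.IsMor X f → ∃ x : Fin d → ℚ, ∀ v, f v = ∑ l, (x l : ℂ) • e l v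

/-- `End(B) ⊗ ℚ` is the totally real field `K` and `dim B = 2 [K : ℚ]`; the simple abelian variety
`B` occurs at most twice in `X` up to isogeny, that is, `dim_ℚ (Hom(B, X) ⊗ ℚ) ≤ dim B`; and for
every simple factor `C` of `X` with real multiplication by `K'`, `[K' : ℚ] = dim C`, one of the
following holds: `K` does not embed into `K'`; `End(C) ⊗ ℚ = K'` is not isomorphic to `K`; `B` occurs
once in `X`, that is, `dim_ℚ (Hom(B, X) ⊗ ℚ) ≤ [K : ℚ]`, and `dim_ℚ (Hom(C, X) ⊗ ℚ) ≤ 2 dim C`. -/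
structure AbVar.IsRelTwoFactor (B X : AbVar) (K : Type) [Field K] [NumberField K] : Prop where
  type : IsRelTwoType B K
  mult : B.HomDimLe X B.g
  link : ∀ C : AbVar, C.IsSimpleFactor X → ∀ (K' : Type) [Field K'] [NumberField K'],
    IsRMType C K' → IsEmpty (K →+* K') ∨ (C.EndDimLe C.g ∧ IsEmpty (K ≃+* K')) ∨
      (B.HomDimLe X (Module.finrank ℚ K) ∧ C.HomDimLe X (2 * C.g))

end Pool.Agent.GPC
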